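import Mathlib

namespace Pool.Agent.Results.MP_44775e_co.BicliqueGap

/-- The number `⌈n / k⌉` of parts. -/
def numParts (n k : ℕ) : ℕ := ⌈(n : ℚ) / (k : ℚ)⌉₊

/-- Given a graph `G`, a number `m` of extra isolated vertices and a map `p` from the enlarged
vertex set to the set of parts, this is the graph whose edges are the edges of `G` together with
all pairs of distinct vertices lying in the same part. -/
def withCliques {V : Type} (G : SimpleGraph V) {m q : ℕ} (p : V ⊕ Fin m → Fin q) :
    SimpleGraph (V ⊕ Fin m) :=
  (G.sum (⊥ : SimpleGraph (Fin m))) ⊔ SimpleGraph.fromRel (fun x y => p x = p y)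

/-- `G` is strongly `k`-colourable: after adding `k * ⌈n/k⌉ - n` isolated vertices, for every
partition of the enlarged vertex set into `⌈n/k⌉` parts of size `k`, the graph obtained by turning
every part into a clique is properly `k`-colourable. -/
def StronglyColorable {V : Type} [Fintype V] (G : SimpleGraph V) (k : ℕ) : Prop :=
  ∀ p : V ⊕ Fin (k * numParts (Fintype.card V) k - Fintype.card V) →
      Fin (numParts (Fintype.card V) k),
    (∀ i, (Finset.univ.filter (fun x => p x = i)).card = k) → (withCliques G p).Colorable k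

/-- The strong chromatic number: the least positive `k` for which `G` is strongly
`k`-colourable. -/
noncomputable def strongChromaticNumber {V : Type} [Fintype V] (G : SimpleGraph V) : ℕ :=
  sInf {k : ℕ | 1 ≤ k ∧ StronglyColorable G k}

open Classical in
/-- The biclique number: the largest `a + b` with `a, b ≥ 1` such that `G` contains the complete
bipartite graph `K_{a,b}` as a subgraph; it is `1` if `G` has no edges. -/
noncomputable def bicliqueNumber {V : Type} (G : SimpleGraph V) : ℕ :=
  if G = ⊥ then 1 else
    sSup {s : ℕ | ∃ a b : ℕ, 1 ≤ a ∧ 1 ≤ b ∧ s = a + b ∧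
      (completeBipartiteGraph (Fin a) (Fin b)).IsContained G}

/-! ### The seven-cycle and its blow-ups -/

/-- The seven-cycle. -/
def C7 : SimpleGraph (Fin 7) := SimpleGraph.fromRel (fun i j => j = i + 1)

instance : DecidableRel C7.Adj := by
  unfold C7
  infer_instance

/-- The blow-up of the seven-cycle: every vertex is replaced by `r` independent vertices. -/
def blow (r : ℕ) : SimpleGraph (Fin 7 × Fin r) := C7.comap Prod.fst

/-- The part of each of the seven columns. -/
def blk : Fin 7 → Fin 3 := ![0, 2, 0, 1, 0, 1, 2]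

lemma blk_alpha : ∀ i j l : Fin 7, i ≠ j → i ≠ l → j ≠ l → ¬ C7.Adj i j → ¬ C7.Adj i l →
    ¬ C7.Adj j l → blk i ≠ blk j → blk i ≠ blk l → blk j ≠ blk l → False := by
  decide

lemma C7_deg : ∀ y a b c : Fin 7, a ≠ b → a ≠ c → b ≠ c → C7.Adj a y → C7.Adj b y →
    C7.Adj c y → False := by
  decide

lemma C7_noC4 : ∀ a b x y : Fin 7, a ≠ b → x ≠ y → C7.Adj a x → C7.Adj a y →
    C7.Adj b x → C7.Adj b y → False := by
  decide

lemma cols_le (X Y : Finset (Fin 7)) (hX : X.Nonempty) (hY : Y.Nonempty)
    (h : ∀ x ∈ X, ∀ y ∈ Y, C7.Adj x y) : X.card + Y.card ≤ 3 := by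
  obtain ⟨x0, hx0⟩ := hX
  obtain ⟨y0, hy0⟩ := hY
  have h1 : X.card ≤ 2 := by
    by_contra hc
    push Not at hc
    obtain ⟨a, ha, b, hb, c, hc', hab, hac, hbc⟩ := Finset.two_lt_card.mp hc
    exact C7_deg y0 a b c hab hac hbc (h a ha y0 hy0) (h b hb y0 hy0) (h c hc' y0 hy0)
  have h2 : Y.card ≤ 2 := by
    by_contra hc
    push Not at hc
    obtain ⟨a, ha, b, hb, c, hc', hab, hac, hbc⟩ := Finset.two_lt_card.mp hc
    exact C7_deg x0 a b c hab hac hbc (h x0 hx0 a ha).symm (h x0 hx0 b hb).symm
      (h x0 hx0 c hc').symm
  by_contra hc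
  push Not at hc
  have h3 : 1 < X.card := by omega
  have h4 : 1 < Y.card := by omega
  obtain ⟨a, ha, b, hb, hab⟩ := Finset.one_lt_card.mp h3
  obtain ⟨x, hx, y, hy, hxy⟩ := Finset.one_lt_card.mp h4
  exact C7_noC4 a b x y hab hxy (h a ha x hx) (h a ha y hy) (h b hb x hx) (h b hb y hy)

lemma biclique_le (r a b : ℕ) (ha : 1 ≤ a) (hb : 1 ≤ b)
    (hc : (completeBipartiteGraph (Fin a) (Fin b)).IsContained (blow r)) : a + b ≤ 3 * r := by
  obtain ⟨f⟩ := hc
  have hinj : Function.Injective f := f.injective
  let A : Finset (Fin 7 × Fin r) := Finset.univ.image (fun i : Fin a => f (Sum.inl i))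
  let B : Finset (Fin 7 × Fin r) := Finset.univ.image (fun i : Fin b => f (Sum.inr i))
  have hA : A.card = a := by
    rw [Finset.card_image_of_injective]
    · simp
    · intro i j hij
      exact Sum.inl_injective (hinj hij)
  have hB : B.card = b := by
    rw [Finset.card_image_of_injective]
    · simp
    · intro i j hij
      exact Sum.inr_injective (hinj hij)
  have hAB : ∀ x ∈ A, ∀ y ∈ B, (blow r).Adj x y := by
    intro x hx y hy
    obtain ⟨i, -, rfl⟩ := Finset.mem_image.mp hx
    obtain ⟨j, -, rfl⟩ := Finset.mem_image.mp hy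
    exact f.toHom.map_adj (by simp [completeBipartiteGraph])
  have hA' : A.Nonempty := by
    rw [← Finset.card_pos]; omega
  have hB' : B.Nonempty := by
    rw [← Finset.card_pos]; omega
  have hcols := cols_le (A.image Prod.fst) (B.image Prod.fst) (hA'.image _) (hB'.image _) (by
    intro x hx y hy
    obtain ⟨x', hx', rfl⟩ := Finset.mem_image.mp hx
    obtain ⟨y', hy', rfl⟩ := Finset.mem_image.mp hy
    exact hAB x' hx' y' hy')
  have key : ∀ S : Finset (Fin 7 × Fin r), S.card ≤ (S.image Prod.fst).card * r := by
    intro S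
    have : S ⊆ (S.image Prod.fst) ×ˢ (Finset.univ : Finset (Fin r)) := by
      intro x hx
      simp only [Finset.mem_product, Finset.mem_image, Finset.mem_univ, and_true]
      exact ⟨x, hx, rfl⟩
    calc S.card ≤ ((S.image Prod.fst) ×ˢ (Finset.univ : Finset (Fin r))).card :=
          Finset.card_le_card this
      _ = (S.image Prod.fst).card * r := by simp
  have k1 := key A
  have k2 := key B
  calc a + b = A.card + B.card := by rw [hA, hB]
    _ ≤ (A.image Prod.fst).card * r + (B.image Prod.fst).card * r := by omega
    _ = ((A.image Prod.fst).card + (B.image Prod.fst).card) * r := by ring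
    _ ≤ 3 * r := Nat.mul_le_mul_right r hcols

lemma bicliqueNumber_le (r : ℕ) (hr : 1 ≤ r) : bicliqueNumber (blow r) ≤ 3 * r := by
  classical
  unfold bicliqueNumber
  split_ifs with h
  · omega
  · have hne : ∃ x y, (blow r).Adj x y := by
      by_contra hcon
      push Not at hcon
      apply h
      ext x y
      simp [hcon x y]
    obtain ⟨x, y, hxy⟩ := hne
    apply csSup_le
    · refine ⟨2, 1, 1, le_rfl, le_rfl, rfl, ⟨⟨⟨Sum.elim (fun _ => x) (fun _ => y), ?_⟩, ?_⟩⟩⟩
      · rintro (u | u) (v | v) huv
        · simp [completeBipartiteGraph] at huv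
        · exact hxy
        · exact hxy.symm
        · simp [completeBipartiteGraph] at huv
      · rintro (u | u) (v | v) huv
        · exact congrArg _ (Subsingleton.elim u v)
        · exact absurd huv hxy.ne
        · exact absurd huv hxy.ne'
        · exact congrArg _ (Subsingleton.elim u v)
    · rintro s ⟨a, b, ha, hb, rfl, hc⟩
      exact biclique_le r a b ha hb hc

/-! ### Extending a partial assignment to an equipartition -/

lemma exists_partition {U : Type} [Fintype U] [DecidableEq U] (q k : ℕ) (hk : 1 ≤ k)
    (hcard : Fintype.card U = q * k) (s : Finset U) (f : U → Fin q)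
    (hf : ∀ i, (s.filter (fun x => f x = i)).card ≤ k) :
    ∃ p : U → Fin q, (∀ x ∈ s, p x = f x) ∧
      ∀ i, (Finset.univ.filter (fun x => p x = i)).card = k := by
  classical
  have hemb : ∀ i : Fin q, ∃ e : U → Fin k, Set.InjOn e {x | x ∈ s ∧ f x = i} := by
    intro i
    have h1 : Nonempty ({x // x ∈ s.filter (fun x => f x = i)} ↪ Fin k) := by
      apply Function.Embedding.nonempty_of_card_le
      rw [Fintype.card_coe, Fintype.card_fin]
      exact hf i
    obtain ⟨e⟩ := h1
    refine ⟨fun x => if hx : x ∈ s.filter (fun x => f x = i) then e ⟨x, hx⟩ else ⟨0, hk⟩, ?_⟩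
    intro x hx y hy hxy
    have hx' : x ∈ s.filter (fun x => f x = i) := Finset.mem_filter.mpr hx
    have hy' : y ∈ s.filter (fun x => f x = i) := Finset.mem_filter.mpr hy
    simp only [hx', hy', dif_pos] at hxy
    exact congrArg Subtype.val (e.injective hxy)
  choose e he using hemb
  let g : U → Fin q × Fin k := fun x => (f x, e (f x) x)
  have hginj : Set.InjOn g s := by
    intro x hx y hy hxy
    have h1 : f x = f y := congrArg Prod.fst hxy
    have h2 : e (f x) x = e (f y) y := congrArg Prod.snd hxy
    rw [h1] at h2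
    exact he (f y) ⟨hx, h1⟩ ⟨hy, rfl⟩ h2
  have hUcard : Fintype.card U = (Finset.univ : Finset (Fin q × Fin k)).card := by
    simp [hcard]
  obtain ⟨G, hG⟩ := Finset.exists_equiv_extend_of_card_eq hUcard
    (Finset.subset_univ (s.image g)) hginj
  let E : U ≃ Fin q × Fin k := G.trans (Equiv.subtypeUnivEquiv (by simp))
  have hE : ∀ x ∈ s, E x = g x := by
    intro x hx
    exact hG x hx
  refine ⟨fun x => (E x).1, ?_, ?_⟩
  · intro x hx
    simp only
    rw [hE x hx]
  · intro i
    have h1 : (Finset.univ.filter (fun x => (E x).1 = i)).card =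
        (({i} : Finset (Fin q)) ×ˢ (Finset.univ : Finset (Fin k))).card := by
      apply Finset.card_equiv E
      intro x
      simp only [Finset.mem_filter, Finset.mem_univ, true_and, Finset.mem_product,
        Finset.mem_singleton, and_true]
    rw [h1]
    simp

lemma numParts_mul (n k : ℕ) (hk : 1 ≤ k) : n ≤ k * numParts n k := by
  have h := Nat.le_ceil ((n : ℚ) / (k : ℚ))
  have hk' : (0 : ℚ) < k := by exact_mod_cast hk
  rw [div_le_iff₀ hk'] at h
  have h' : n ≤ ⌈(n : ℚ) / (k : ℚ)⌉₊ * k := by exact_mod_cast h
  unfold numParts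
  rw [mul_comm]
  exact h'

lemma two_lt_numParts (n k : ℕ) (hk : 1 ≤ k) (h : 2 * k < n) : 2 < numParts n k := by
  unfold numParts
  rw [Nat.lt_ceil]
  have hk' : (0 : ℚ) < k := by exact_mod_cast hk
  rw [lt_div_iff₀ hk']
  exact_mod_cast h

/-- A map from the graph vertices to the parts that is small on every part extends to an
admissible partition of the enlarged vertex set. -/
lemma extend_blow (r k q : ℕ) (hk : 1 ≤ k) (hq : Fintype.card (Fin 7 × Fin r) ≤ k * q)
    (S : Finset (Fin 7 × Fin r)) (f : Fin 7 × Fin r → Fin q)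
    (hf : ∀ i, (S.filter (fun x => f x = i)).card ≤ k) (i0 : Fin q) :
    ∃ p : (Fin 7 × Fin r) ⊕ Fin (k * q - Fintype.card (Fin 7 × Fin r)) → Fin q,
      (∀ x ∈ S, p (Sum.inl x) = f x) ∧
      ∀ i, (Finset.univ.filter (fun x => p x = i)).card = k := by
  classical
  obtain ⟨p, hp1, hp2⟩ := exists_partition
    (U := (Fin 7 × Fin r) ⊕ Fin (k * q - Fintype.card (Fin 7 × Fin r))) q k hk
    (by rw [Fintype.card_sum, Fintype.card_fin, Nat.add_sub_cancel' hq, mul_comm])
    (S.map Function.Embedding.inl) (Sum.elim f (fun _ => i0)) (by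
      intro i
      rw [Finset.filter_map, Finset.card_map]
      exact hf i)
  refine ⟨p, ?_, hp2⟩
  intro x hx
  have := hp1 (Sum.inl x) (Finset.mem_map_of_mem Function.Embedding.inl hx)
  simpa using this

/-- Few colours are not enough for the blow-up of the seven-cycle. -/
lemma lower (r k : ℕ) (hk : 1 ≤ k) (h : StronglyColorable (blow r) k) : 7 * r ≤ 2 * k := by
  classical
  by_contra hlt
  push Not at hlt
  have hr : 1 ≤ r := by omega
  have hcardV : Fintype.card (Fin 7 × Fin r) = 7 * r := by simp
  have hq1 : Fintype.card (Fin 7 × Fin r) ≤ k * numParts (Fintype.card (Fin 7 × Fin r)) k :=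
    numParts_mul _ _ hk
  have hq2 : 2 < numParts (Fintype.card (Fin 7 × Fin r)) k :=
    two_lt_numParts _ _ hk (by rw [hcardV]; exact hlt)
  unfold StronglyColorable at h
  generalize numParts (Fintype.card (Fin 7 × Fin r)) k = q at h hq1 hq2
  by_cases hc : 3 * r ≤ k
  · -- every part can absorb whole columns
    have hfib : ∀ i : Fin q, ((Finset.univ : Finset (Fin 7 × Fin r)).filter
        (fun x => Fin.castLE hq2 (blk x.1) = i)).card ≤ k := by
      intro i
      have hcol : ((Finset.univ : Finset (Fin 7)).filter
          (fun j => Fin.castLE hq2 (blk j) = i)).card ≤ 3 := by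
        by_cases hi : ∃ j : Fin 3, Fin.castLE hq2 j = i
        · obtain ⟨j, rfl⟩ := hi
          have : ((Finset.univ : Finset (Fin 7)).filter
              (fun l => Fin.castLE hq2 (blk l) = Fin.castLE hq2 j)) =
              ((Finset.univ : Finset (Fin 7)).filter (fun l => blk l = j)) := by
            ext l
            simp
          rw [this]
          clear this
          revert j
          decide
        · have : ((Finset.univ : Finset (Fin 7)).filter
              (fun l => Fin.castLE hq2 (blk l) = i)) = ∅ := by
            rw [Finset.filter_eq_empty_iff]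
            intro l _ hl
            exact hi ⟨_, hl⟩
          rw [this]
          simp
      have hprod : ((Finset.univ : Finset (Fin 7 × Fin r)).filter
          (fun x => Fin.castLE hq2 (blk x.1) = i)) =
          ((Finset.univ : Finset (Fin 7)).filter
            (fun j => Fin.castLE hq2 (blk j) = i)) ×ˢ (Finset.univ : Finset (Fin r)) := by
        ext x
        simp
      rw [hprod, Finset.card_product, Finset.card_univ, Fintype.card_fin]
      calc _ ≤ 3 * r := Nat.mul_le_mul_right r hcol
        _ ≤ k := hc
    obtain ⟨p, hp1, hp2⟩ := extend_blow r k q hk hq1 Finset.univ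
      (fun x => Fin.castLE hq2 (blk x.1)) hfib ⟨0, by omega⟩
    obtain ⟨c⟩ := h p hp2
    have hpig : Fintype.card (Fin k) * 2 < Fintype.card (Fin 7 × Fin r) := by
      rw [hcardV, Fintype.card_fin]; omega
    obtain ⟨y, hy⟩ := Fintype.exists_lt_card_fiber_of_mul_lt_card
      (fun x : Fin 7 × Fin r => c (Sum.inl x)) hpig
    obtain ⟨u, hu, v, hv, w, hw, huv, huw, hvw⟩ := Finset.two_lt_card.mp hy
    simp only [Finset.mem_filter, Finset.mem_univ, true_and] at hu hv hw
    have key : ∀ a b : Fin 7 × Fin r, a ≠ b → c (Sum.inl a) = c (Sum.inl b) →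
        ¬ C7.Adj a.1 b.1 ∧ blk a.1 ≠ blk b.1 := by
      intro a b hab hcab
      have hnadj : ¬ (withCliques (blow r) p).Adj (Sum.inl a) (Sum.inl b) := by
        intro hadj
        exact c.valid hadj hcab
      constructor
      · intro hadj
        apply hnadj
        left
        exact hadj
      · intro hblk
        apply hnadj
        right
        rw [SimpleGraph.fromRel_adj]
        refine ⟨by simpa using hab, Or.inl ?_⟩
        rw [hp1 a (Finset.mem_univ _), hp1 b (Finset.mem_univ _), hblk]
    obtain ⟨n1, b1⟩ := key u v huv (hu.trans hv.symm)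
    obtain ⟨n2, b2⟩ := key u w huw (hu.trans hw.symm)
    obtain ⟨n3, b3⟩ := key v w hvw (hv.trans hw.symm)
    exact blk_alpha u.1 v.1 w.1 (fun e => b1 (congrArg blk e)) (fun e => b2 (congrArg blk e))
      (fun e => b3 (congrArg blk e)) n1 n2 n3 b1 b2 b3
  · -- a large biclique spread over two parts
    push Not at hc
    let z0 : Fin 7 × Fin r := (0, ⟨0, hr⟩)
    let z1 : Fin 7 × Fin r := (1, ⟨0, hr⟩)
    let N : Finset (Fin 7 × Fin r) := ({0, 1, 6} : Finset (Fin 7)) ×ˢ Finset.univ
    have hN : N.card = 3 * r := by
      simp only [N, Finset.card_product, Finset.card_univ, Fintype.card_fin]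
      rfl
    have hz : z0 ≠ z1 := by
      intro he
      have := congrArg Prod.fst he
      simp [z0, z1] at this
    have hsub : ({z0, z1} : Finset (Fin 7 × Fin r)) ⊆ N := by
      intro x hx
      simp only [Finset.mem_insert, Finset.mem_singleton] at hx
      rcases hx with rfl | rfl <;> simp [N, z0, z1]
    obtain ⟨S, hS1, hS2, hS3⟩ := Finset.exists_subsuperset_card_eq (n := k + 1) hsub
      (by rw [Finset.card_pair hz]; omega) (by rw [hN]; omega)
    have hz0 : z0 ∈ S := hS1 (by simp)
    have hz1 : z1 ∈ S := hS1 (by simp)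
    let b0 : Fin q := ⟨0, by omega⟩
    let b1 : Fin q := ⟨1, by omega⟩
    have hb01 : b0 ≠ b1 := by
      intro he
      have := congrArg Fin.val he
      simp [b0, b1] at this
    let f : Fin 7 × Fin r → Fin q := fun x => if x.1 = 0 then b0 else b1
    have hfib : ∀ i, (S.filter (fun x => f x = i)).card ≤ k := by
      intro i
      have : ∃ z ∈ S, f z ≠ i := by
        by_cases hi : i = b0
        · refine ⟨z1, hz1, ?_⟩
          rw [hi]
          simp only [f, z1]
          simpa using hb01.symm
        · refine ⟨z0, hz0, ?_⟩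
          simp only [f, z0]
          simpa using fun e => hi e.symm
      obtain ⟨z, hzS, hzi⟩ := this
      have hss : S.filter (fun x => f x = i) ⊆ S.erase z := by
        intro x hx
        simp only [Finset.mem_filter] at hx
        rw [Finset.mem_erase]
        refine ⟨?_, hx.1⟩
        rintro rfl
        exact hzi hx.2
      have := Finset.card_le_card hss
      rw [Finset.card_erase_of_mem hzS, hS3] at this
      simpa using this
    obtain ⟨p, hp1, hp2⟩ := extend_blow r k q hk hq1 S f hfib b0
    have hcol := h p hp2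
    have hclique : (withCliques (blow r) p).IsClique
        (S.map (Function.Embedding.inl (β := Fin (k * q - Fintype.card (Fin 7 × Fin r)))) :
          Set _) := by
      intro x hx y hy hxy
      simp only [Finset.coe_map, Set.mem_image, Finset.mem_coe] at hx hy
      obtain ⟨x, hx, rfl⟩ := hx
      obtain ⟨y, hy, rfl⟩ := hy
      have hxy' : x ≠ y := fun e => hxy (by rw [e])
      by_cases hfxy : f x = f y
      · right
        rw [SimpleGraph.fromRel_adj]
        refine ⟨hxy, Or.inl ?_⟩
        show p (Sum.inl x) = p (Sum.inl y)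
        rw [hp1 x hx, hp1 y hy, hfxy]
      · left
        show C7.Adj x.1 y.1
        have hxN := hS2 hx
        have hyN := hS2 hy
        simp only [N, Finset.mem_product, Finset.mem_univ, and_true] at hxN hyN
        have hne : ¬ ((x.1 = 0) ↔ (y.1 = 0)) := by
          intro he
          apply hfxy
          simp only [f]
          by_cases h0 : x.1 = 0
          · simp [h0, he.mp h0]
          · have : ¬ y.1 = 0 := fun e => h0 (he.mpr e)
            simp [h0, this]
        generalize x.1 = a at hxN hne
        generalize y.1 = b at hyN hne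
        clear * - hxN hyN hne
        revert a b
        decide
    have := hclique.card_le_of_colorable hcol
    rw [Finset.card_map, hS3] at this
    omega

lemma strong_nonempty (r : ℕ) (hr : 1 ≤ r) :
    {k : ℕ | 1 ≤ k ∧ StronglyColorable (blow r) k}.Nonempty := by
  refine ⟨Fintype.card (Fin 7 × Fin r), by simp; omega, ?_⟩
  intro p _
  have hpos : (0 : ℚ) < (Fintype.card (Fin 7 × Fin r) : ℚ) := by
    have : 0 < Fintype.card (Fin 7 × Fin r) := by simp; omega
    exact_mod_cast this
  have hq : numParts (Fintype.card (Fin 7 × Fin r)) (Fintype.card (Fin 7 × Fin r)) = 1 := by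
    unfold numParts
    rw [div_self hpos.ne']
    simp
  have hcol := SimpleGraph.colorable_of_fintype (withCliques (blow r) p)
  have hcard : Fintype.card ((Fin 7 × Fin r) ⊕ Fin (Fintype.card (Fin 7 × Fin r) *
      numParts (Fintype.card (Fin 7 × Fin r)) (Fintype.card (Fin 7 × Fin r)) -
        Fintype.card (Fin 7 × Fin r))) = Fintype.card (Fin 7 × Fin r) := by
    rw [Fintype.card_sum, Fintype.card_fin, hq]
    omega
  rw [hcard] at hcol
  exact hcol

/-- For every `t` some finite simple graph has strong chromatic number at least its biclique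
number plus `t`. -/
theorem result : ∀ t : ℕ, ∃ (V : Type) (_ : Fintype V) (G : SimpleGraph V),
    bicliqueNumber G + t ≤ strongChromaticNumber G := by
  intro t
  refine ⟨Fin 7 × Fin (2 * (t + 1)), inferInstance, blow (2 * (t + 1)), ?_⟩
  have h1 := bicliqueNumber_le (2 * (t + 1)) (by omega)
  have h2 := Nat.sInf_mem (strong_nonempty (2 * (t + 1)) (by omega))
  have h3 := lower (2 * (t + 1)) _ h2.1 h2.2
  unfold strongChromaticNumber
  omega

end Pool.Agent.Results.MP_44775e_co.BicliqueGap
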